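import Mathlib
import Pool.Agent.Helper240.Amen.HB

/-!
A finitely generated amenable (solvable) group acting on a compact metric space such that the closure
of the continuous coboundaries is strictly smaller than the space of continuous cocycles with zero
integral against every invariant probability measure.

The group is generated by `t = ((1, 0), (0, 2))` and `u = ((1, 1), (0, 1))`, it acts on the unit
sphere of `ℝ²` and the cocycle is `c (g, v) = log ‖g v‖`.
-/

set_option autoImplicit false

open MeasureTheory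

namespace Pool.Agent.Results.MP_d52620_an.ClosureFails

/-- A continuous real cocycle over an action of `G` on `M`: `c (g h, x) = c (g, h x) + c (h, x)`. -/
def IsCocycle {G M : Type} [Group G] [TopologicalSpace M] [MulAction G M] (c : G → C(M, ℝ)) : Prop :=
  ∀ (g h : G) (x : M), c (g * h) x = c g (h • x) + c h x

/-- The coboundary `δ u (g, x) = u (g x) - u x`. -/
def cobound {G M : Type} [Group G] [TopologicalSpace M] [MulAction G M] [ContinuousConstSMul G M]
    (u : C(M, ℝ)) (g : G) : C(M, ℝ) :=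
  u.comp ⟨fun x => g • x, continuous_const_smul g⟩ - u

/-- `μ` is a Borel probability measure invariant under the action of `G`. -/
def IsInvariantProb (G : Type) {M : Type} [Group G] [MulAction G M] [MeasurableSpace M]
    (μ : Measure M) : Prop :=
  IsProbabilityMeasure μ ∧ ∀ g : G, μ.map (fun x => g • x) = μ

/-- `c` has zero integral for every invariant probability measure: `c ∈ O (α)`. -/
def InO {G M : Type} [Group G] [TopologicalSpace M] [MulAction G M] [MeasurableSpace M]
    (c : G → C(M, ℝ)) : Prop :=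
  ∀ μ : Measure M, IsInvariantProb G μ → ∀ g : G, ∫ x, c g x ∂μ = 0

/-- `c` lies in the closure of the coboundaries for the norm `max_{s ∈ S} ‖c (s, ·)‖`. -/
def InClosure {G M : Type} [Group G] [TopologicalSpace M] [CompactSpace M] [MulAction G M]
    [ContinuousConstSMul G M] (S : Finset G) (c : G → C(M, ℝ)) : Prop :=
  ∀ ε : ℝ, 0 < ε → ∃ u : C(M, ℝ), ∀ s ∈ S, ‖c s - cobound u s‖ < ε

/-- `S` is a finite symmetric generating set which does not contain the identity. -/
def IsSymmGen {G : Type} [Group G] (S : Finset G) : Prop :=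
  (∀ s ∈ S, s⁻¹ ∈ S) ∧ (1 : G) ∉ S ∧ Subgroup.closure (S : Set G) = ⊤

/-- The discrete group `G` is amenable: there is a finitely additive probability measure on all
subsets of `G` which is invariant under left translations. -/
def IsAmenable (G : Type) [Group G] : Prop :=
  ∃ m : Set G → ℝ, (∀ A, 0 ≤ m A) ∧ m Set.univ = 1 ∧
    (∀ A B, Disjoint A B → m (A ∪ B) = m A + m B) ∧ ∀ (g : G) (A : Set G), m ((g * ·) '' A) = m A

/-! ### The upper triangular group -/

/-- Matrices `((1, b), (0, a))` with `a > 0`. -/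
@[ext]
structure Tri where
  a : ℝ
  b : ℝ
  ha : 0 < a

namespace Tri

instance : Mul Tri := ⟨fun g h => ⟨g.a * h.a, h.b + g.b * h.a, mul_pos g.ha h.ha⟩⟩
instance : One Tri := ⟨⟨1, 0, one_pos⟩⟩
noncomputable instance : Inv Tri := ⟨fun g => ⟨g.a⁻¹, -(g.b * g.a⁻¹), inv_pos.mpr g.ha⟩⟩

theorem mul_a (g h : Tri) : (g * h).a = g.a * h.a := rfl
theorem mul_b (g h : Tri) : (g * h).b = h.b + g.b * h.a := rfl
theorem one_a : (1 : Tri).a = 1 := rfl
theorem one_b : (1 : Tri).b = 0 := rfl
theorem inv_a (g : Tri) : (g⁻¹).a = g.a⁻¹ := rfl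
theorem inv_b (g : Tri) : (g⁻¹).b = -(g.b * g.a⁻¹) := rfl

noncomputable instance : Group Tri :=
  Group.ofLeftAxioms
    (by
      intro g h k
      ext
      · simp only [mul_a]; ring
      · simp only [mul_a, mul_b]; ring)
    (by
      intro g
      ext
      · simp only [mul_a, one_a]; ring
      · simp only [mul_b, one_b]; ring)
    (by
      intro g
      have := g.ha.ne'
      ext
      · simp only [mul_a, one_a, inv_a]; field_simp
      · simp only [mul_b, one_b, inv_b]; field_simp; ring)

/-- The character `a`. -/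
noncomputable def chi : Tri →* ℝˣ where
  toFun g := Units.mk0 g.a g.ha.ne'
  map_one' := by ext; rfl
  map_mul' g h := by ext; rfl

/-- The unipotent subgroup. -/
def uni : Multiplicative ℝ →* Tri where
  toFun b := ⟨1, Multiplicative.toAdd b, one_pos⟩
  map_one' := by ext <;> rfl
  map_mul' x y := by
    ext
    · simp [mul_a]
    · simp only [mul_b, toAdd_mul]; ring

theorem solvable : Group.IsSolvable Tri := by
  refine Group.isSolvable_of_ker_le_range uni chi ?_
  intro g hg
  rw [MonoidHom.mem_ker] at hg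
  have h1 : g.a = 1 := congrArg Units.val hg
  refine ⟨Multiplicative.ofAdd g.b, ?_⟩
  ext
  · exact h1.symm
  · rfl

/-- The linear map attached to an element. -/
def lin (g : Tri) (v : ℝ × ℝ) : ℝ × ℝ := (v.1 + g.b * v.2, g.a * v.2)

theorem lin_mul (g h : Tri) (v : ℝ × ℝ) : lin (g * h) v = lin g (lin h v) := by
  ext
  · simp only [lin, mul_b, mul_a]; ring
  · simp only [lin, mul_a]; ring

theorem lin_one (v : ℝ × ℝ) : lin 1 v = v := by
  ext
  · simp only [lin, one_b]; ring
  · simp only [lin, one_a]; ring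

theorem lin_smul (g : Tri) (c : ℝ) (v : ℝ × ℝ) : lin g (c • v) = c • lin g v := by
  ext
  · simp only [lin, Prod.smul_fst, Prod.smul_snd, smul_eq_mul]; ring
  · simp only [lin, Prod.smul_snd, smul_eq_mul]; ring

theorem lin_zero (g : Tri) : lin g 0 = 0 := by
  ext
  · simp [lin]
  · simp [lin]

theorem lin_ne (g : Tri) (v : ℝ × ℝ) (hv : v ≠ 0) : lin g v ≠ 0 := by
  intro h
  apply hv
  have : lin g⁻¹ (lin g v) = v := by rw [← lin_mul, inv_mul_cancel, lin_one]
  rw [← this, h, lin_zero]

theorem continuous_lin (g : Tri) : Continuous (lin g) := by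
  unfold lin
  fun_prop

end Tri

/-- The unit sphere of `ℝ²` (with the maximum norm). -/
abbrev Sph : Type := Metric.sphere (0 : ℝ × ℝ) 1

theorem Sph.norm_eq (v : Sph) : ‖(v : ℝ × ℝ)‖ = 1 := by
  have := v.2
  rwa [mem_sphere_iff_norm, sub_zero] at this

theorem Sph.ne_zero (v : Sph) : (v : ℝ × ℝ) ≠ 0 := by
  intro h
  have := v.norm_eq
  rw [h, norm_zero] at this
  exact zero_ne_one this

open Tri

theorem norm_lin_pos (g : Tri) (v : Sph) : 0 < ‖lin g v‖ :=
  norm_pos_iff.mpr (lin_ne g v v.ne_zero)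

/-- The projective action on the sphere. -/
noncomputable def act (g : Tri) (v : Sph) : Sph :=
  ⟨‖lin g v‖⁻¹ • lin g v, by
    have h := norm_lin_pos g v
    simp only [mem_sphere_iff_norm, sub_zero, norm_smul, norm_inv, norm_norm]
    field_simp⟩

theorem act_coe (g : Tri) (v : Sph) : (act g v : ℝ × ℝ) = ‖lin g v‖⁻¹ • lin g v := rfl

noncomputable instance : MulAction Tri Sph where
  smul := act
  one_smul v := by
    apply Subtype.ext
    show (act 1 v : ℝ × ℝ) = v
    rw [act_coe, lin_one, v.norm_eq, inv_one, one_smul]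
  mul_smul g h v := by
    apply Subtype.ext
    show (act (g * h) v : ℝ × ℝ) = act g (act h v)
    have h1 := norm_lin_pos h v
    rw [act_coe, act_coe, act_coe, lin_mul, lin_smul, norm_smul, smul_smul, norm_inv, norm_norm]
    congr 1
    rw [mul_inv_rev, inv_inv]
    field_simp

theorem smul_coe (g : Tri) (v : Sph) : ((g • v : Sph) : ℝ × ℝ) = ‖lin g v‖⁻¹ • lin g v := rfl

instance : ContinuousConstSMul Tri Sph where
  continuous_const_smul g := by
    apply Continuous.subtype_mk
    have h1 : Continuous fun v : Sph => lin g v := (continuous_lin g).comp continuous_subtype_val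
    exact (h1.norm.inv₀ (fun v => (norm_lin_pos g v).ne')).smul h1

instance : CompactSpace Sph := isCompact_iff_compactSpace.mp (isCompact_sphere _ _)

/-- The cocycle `log ‖g v‖`. -/
noncomputable def coc (g : Tri) : C(Sph, ℝ) :=
  ⟨fun v => Real.log ‖lin g v‖, by
    have h1 : Continuous fun v : Sph => lin g v := (continuous_lin g).comp continuous_subtype_val
    exact h1.norm.log (fun v => (norm_lin_pos g v).ne')⟩

theorem coc_apply (g : Tri) (v : Sph) : coc g v = Real.log ‖lin g v‖ := rfl

theorem coc_mul (g h : Tri) (v : Sph) : coc (g * h) v = coc g (h • v) + coc h v := by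
  rw [coc_apply, coc_apply, coc_apply, smul_coe, lin_mul, lin_smul, norm_smul, norm_inv, norm_norm,
    Real.log_mul (inv_ne_zero (norm_lin_pos h v).ne')
      (norm_ne_zero_iff.mpr (lin_ne g _ (lin_ne h _ v.ne_zero))), Real.log_inv]
  ring

/-- The generators. -/
noncomputable def tt : Tri := ⟨2, 0, two_pos⟩
noncomputable def uu : Tri := ⟨1, 1, one_pos⟩

theorem uu_pow (n : ℕ) : (uu ^ n).a = 1 ∧ (uu ^ n).b = n := by
  induction n with
  | zero => simp [one_a, one_b]
  | succ n ih =>
    rw [pow_succ, mul_a, mul_b, ih.1, ih.2]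
    simp [uu]
    ring

theorem tendsto_coc (g : Tri) (v : Sph) :
    Filter.Tendsto (fun n : ℕ => coc g ((uu ^ n) • v)) Filter.atTop (nhds 0) := by
  have e : ∀ n : ℕ, coc g ((uu ^ n) • v) =
      Real.log ‖lin g (lin (uu ^ n) v)‖ - Real.log ‖lin (uu ^ n) v‖ := by
    intro n
    have := coc_mul g (uu ^ n) v
    rw [coc_apply, coc_apply (uu ^ n), lin_mul] at this
    linarith
  by_cases hy : (v : ℝ × ℝ).2 = 0
  · have h1 : ∀ (g : Tri), lin g v = v := by
      intro g
      ext
      · simp [lin, hy]
      · simp [lin, hy]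
    have h2 : (fun n : ℕ => coc g ((uu ^ n) • v)) = fun _ => 0 := by
      funext n
      rw [e, h1, h1, sub_self]
    rw [h2]
    exact tendsto_const_nhds
  · -- rescale by `1 / (n + 1)`
    let w : ℕ → ℝ × ℝ := fun n => (1 / ((n : ℝ) + 1)) • lin (uu ^ n) v
    have hw : Filter.Tendsto w Filter.atTop (nhds ((v : ℝ × ℝ).2, 0)) := by
      have h1 : ∀ n, w n = ((1 / ((n : ℝ) + 1)) * ((v : ℝ × ℝ).1 - (v : ℝ × ℝ).2) + (v : ℝ × ℝ).2,
          (1 / ((n : ℝ) + 1)) * (v : ℝ × ℝ).2) := by
        intro n
        have hn : ((n : ℝ) + 1) ≠ 0 := by positivity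
        ext
        · simp only [w, lin, (uu_pow n).2, Prod.smul_fst, smul_eq_mul]
          field_simp
          ring
        · simp only [w, lin, (uu_pow n).1, Prod.smul_snd, smul_eq_mul, one_mul]
      rw [show w = _ from funext h1]
      have h0 := tendsto_one_div_add_atTop_nhds_zero_nat (𝕜 := ℝ)
      refine Filter.Tendsto.prodMk_nhds ?_ ?_
      · simpa using (h0.mul_const ((v : ℝ × ℝ).1 - (v : ℝ × ℝ).2)).add_const ((v : ℝ × ℝ).2)
      · simpa using h0.mul_const ((v : ℝ × ℝ).2)
    have hlim : lin g ((v : ℝ × ℝ).2, 0) = ((v : ℝ × ℝ).2, 0) := by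
      ext
      · simp [lin]
      · simp [lin]
    have hne : ((v : ℝ × ℝ).2, (0 : ℝ)) ≠ (0 : ℝ × ℝ) := by
      intro h
      exact hy (congrArg Prod.fst h)
    have h1 : Filter.Tendsto (fun n => Real.log ‖lin g (w n)‖ - Real.log ‖w n‖) Filter.atTop
        (nhds (Real.log ‖lin g ((v : ℝ × ℝ).2, 0)‖ - Real.log ‖(((v : ℝ × ℝ).2, (0 : ℝ)) : ℝ × ℝ)‖)) := by
      apply Filter.Tendsto.sub
      · apply Filter.Tendsto.log
        · exact (((continuous_lin g).tendsto _).comp hw).norm
        · rw [hlim]; exact norm_ne_zero_iff.mpr hne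
      · apply Filter.Tendsto.log hw.norm
        exact norm_ne_zero_iff.mpr hne
    rw [hlim, sub_self] at h1
    refine h1.congr ?_
    intro n
    rw [e]
    have hn : (1 / ((n : ℝ) + 1)) ≠ 0 := by positivity
    have h3 : lin (uu ^ n) v ≠ 0 := lin_ne _ _ v.ne_zero
    simp only [w]
    rw [lin_smul, norm_smul, norm_smul,
      Real.log_mul (norm_ne_zero_iff.mpr hn) (norm_ne_zero_iff.mpr (lin_ne g _ h3)),
      Real.log_mul (norm_ne_zero_iff.mpr hn) (norm_ne_zero_iff.mpr h3)]
    ring

/-- The group: `Γ = ⟨t, u⟩`. -/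
noncomputable abbrev Gam : Subgroup Tri := Subgroup.closure {tt, uu}

theorem amenable_Gam : IsAmenable Gam := by
  have h1 : Group.IsSolvable Tri := solvable
  have h2 : Group.IsSolvable Gam := inferInstance
  exact Pool.Agent.Helper240.Amen.amenable_of_solvable Gam h2

theorem tt_mem : tt ∈ Gam := Subgroup.subset_closure (by simp)
theorem uu_mem : uu ∈ Gam := Subgroup.subset_closure (by simp)

instance : ContinuousConstSMul Gam Sph where
  continuous_const_smul g := continuous_const_smul (g : Tri)

/-- The cocycle on `Γ`. -/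
noncomputable def cocG (g : Gam) : C(Sph, ℝ) := coc (g : Tri)

theorem cocG_isCocycle : IsCocycle cocG := fun g h x => coc_mul (g : Tri) (h : Tri) x

theorem cocG_inO : InO cocG := by
  rintro μ ⟨hμ, hinv⟩ g
  have h1 : ∀ n : ℕ, ∫ x, cocG g x ∂μ = ∫ x, coc (g : Tri) ((uu ^ n) • x) ∂μ := by
    intro n
    have hmem : uu ^ n ∈ Gam := Subgroup.pow_mem _ uu_mem n
    have h2 : μ.map (fun x => (uu ^ n) • x) = μ := hinv ⟨uu ^ n, hmem⟩
    have h3 : Continuous fun x : Sph => (uu ^ n) • x := continuous_const_smul _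
    have h4 : ∫ x, coc (g : Tri) x ∂μ = ∫ x, coc (g : Tri) x ∂(μ.map (fun x => (uu ^ n) • x)) := by
      rw [h2]
    show ∫ x, coc (g : Tri) x ∂μ = _
    rw [h4, integral_map h3.aemeasurable]
    exact (coc (g : Tri)).continuous.aestronglyMeasurable
  have h2 : Filter.Tendsto (fun n : ℕ => ∫ x, coc (g : Tri) ((uu ^ n) • x) ∂μ) Filter.atTop
      (nhds (∫ _ : Sph, (0 : ℝ) ∂μ)) := by
    apply tendsto_integral_of_dominated_convergence (fun _ => ‖coc (g : Tri)‖)
    · intro n
      exact ((coc (g : Tri)).continuous.comp (continuous_const_smul _)).aestronglyMeasurable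
    · exact integrable_const _
    · intro n
      exact Filter.Eventually.of_forall fun x => ContinuousMap.norm_coe_le_norm _ _
    · exact Filter.Eventually.of_forall fun x => tendsto_coc (g : Tri) x
  have h3 : (fun n : ℕ => ∫ x, coc (g : Tri) ((uu ^ n) • x) ∂μ) =
      fun _ => ∫ x, cocG g x ∂μ := funext fun n => (h1 n).symm
  rw [h3] at h2
  have h4 := tendsto_nhds_unique tendsto_const_nhds h2
  rw [h4, integral_zero]

/-- error terms are subadditive along words -/
theorem word_bound (S : Finset Gam) (g : Gam) (hg : g ∈ Subgroup.closure (S : Set Gam)) :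
    ∃ N : ℕ, ∀ (u : C(Sph, ℝ)) (ε : ℝ), 0 ≤ ε → (∀ s ∈ S, ‖cocG s - cobound u s‖ ≤ ε) →
      ∀ x : Sph, |cocG g x - cobound u g x| ≤ N * ε := by
  induction hg using Subgroup.closure_induction with
  | mem s hs =>
    refine ⟨1, fun u ε _ h x => ?_⟩
    have h1 := h s hs
    have h2 := ContinuousMap.norm_coe_le_norm (cocG s - cobound u s) x
    rw [Nat.cast_one, one_mul]
    exact h2.trans h1
  | one =>
    refine ⟨0, fun u ε _ h x => ?_⟩
    have h1 : cocG 1 x = 0 := by
      have := cocG_isCocycle 1 1 x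
      rw [one_mul, one_smul] at this
      linarith
    have h2 : cobound u (1 : Gam) x = 0 := by
      show u ((1 : Gam) • x) - u x = 0
      rw [one_smul, sub_self]
    rw [h1, h2]
    simp
  | mul g h _ _ ihg ihh =>
    obtain ⟨N, hN⟩ := ihg
    obtain ⟨N', hN'⟩ := ihh
    refine ⟨N + N', fun u ε hε hS x => ?_⟩
    have h1 := cocG_isCocycle g h x
    have h2 : cobound u (g * h) x = cobound u g (h • x) + cobound u h x := by
      show u ((g * h) • x) - u x = (u (g • (h • x)) - u (h • x)) + (u (h • x) - u x)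
      rw [mul_smul]
      ring
    have h3 := hN u ε hε hS (h • x)
    have h4 := hN' u ε hε hS x
    rw [h1, h2]
    have h5 : cocG g (h • x) + cocG h x - (cobound u g (h • x) + cobound u h x) =
        (cocG g (h • x) - cobound u g (h • x)) + (cocG h x - cobound u h x) := by ring
    rw [h5]
    refine (abs_add_le _ _).trans ?_
    push_cast
    linarith
  | inv g _ ih =>
    obtain ⟨N, hN⟩ := ih
    refine ⟨N, fun u ε hε hS x => ?_⟩
    have h1 := cocG_isCocycle g g⁻¹ x
    have h0 : cocG (1 : Gam) x = 0 := by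
      have := cocG_isCocycle 1 1 x
      rw [one_mul, one_smul] at this
      linarith
    rw [mul_inv_cancel, h0] at h1
    have h2 : cobound u g⁻¹ x = - cobound u g (g⁻¹ • x) := by
      show u (g⁻¹ • x) - u x = -(u (g • (g⁻¹ • x)) - u (g⁻¹ • x))
      rw [smul_inv_smul]
      ring
    have h3 := hN u ε hε hS (g⁻¹ • x)
    have h4 : cocG g⁻¹ x - cobound u g⁻¹ x = -(cocG g (g⁻¹ • x) - cobound u g (g⁻¹ • x)) := by
      rw [h2]; linarith
    rw [h4, abs_neg]
    exact h3

/-- The base point `(0, 1)`. -/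
def pt : Sph := ⟨(0, 1), by simp [Prod.norm_def]⟩

theorem tt_pt : tt • pt = pt := by
  apply Subtype.ext
  rw [smul_coe]
  have h : lin tt (pt : ℝ × ℝ) = (0, 2) := by
    ext
    · simp [lin, pt, tt]
    · simp [lin, pt, tt]
  rw [h]
  have h2 : ‖((0 : ℝ), (2 : ℝ))‖ = 2 := by simp [Prod.norm_def]
  rw [h2]
  ext
  · simp [pt]
  · simp [pt]

theorem coc_tt_pt : coc tt pt = Real.log 2 := by
  rw [coc_apply]
  have h : lin tt (pt : ℝ × ℝ) = (0, 2) := by
    ext
    · simp [lin, pt, tt]
    · simp [lin, pt, tt]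
  rw [h]
  have h2 : ‖((0 : ℝ), (2 : ℝ))‖ = 2 := by simp [Prod.norm_def]
  rw [h2]

theorem not_inClosure (S : Finset Gam) (hS : Subgroup.closure (S : Set Gam) = ⊤) :
    ¬ InClosure S cocG := by
  intro hcl
  obtain ⟨N, hN⟩ := word_bound S ⟨tt, tt_mem⟩ (by rw [hS]; trivial)
  have hlog : 0 < Real.log 2 := Real.log_pos one_lt_two
  obtain ⟨u, hu⟩ := hcl (Real.log 2 / (N + 1)) (by positivity)
  have h1 := hN u (Real.log 2 / (N + 1)) (by positivity) (fun s hs => (hu s hs).le) pt
  have h2 : cobound u (⟨tt, tt_mem⟩ : Gam) pt = 0 := by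
    show u (tt • pt) - u pt = 0
    rw [tt_pt, sub_self]
  have h3 : cocG ⟨tt, tt_mem⟩ pt = Real.log 2 := coc_tt_pt
  rw [h2, h3, sub_zero, abs_of_pos hlog] at h1
  have h4 : (N : ℝ) * (Real.log 2 / (N + 1)) < Real.log 2 := by
    have h5 : (0 : ℝ) < N + 1 := by positivity
    rw [mul_div_assoc', div_lt_iff₀ h5]
    nlinarith
  linarith

/-- There are a finitely generated amenable group `G`, a compact metric space `M` and an action of
`G` on `M` by homeomorphisms, and a continuous cocycle `c` with `∫ c (g, ·) dμ = 0` for every `g` and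
every invariant Borel probability measure `μ`, such that for every finite symmetric generating set `S`
of `G` the cocycle `c` is not in the closure of the coboundaries. -/
theorem result : ∃ (G : Type) (_ : Group G) (M : Type) (_ : MetricSpace M) (_ : CompactSpace M)
    (_ : MeasurableSpace M) (_ : BorelSpace M) (_ : MulAction G M) (_ : ContinuousConstSMul G M)
    (c : G → C(M, ℝ)), (∃ S : Finset G, IsSymmGen S) ∧ IsAmenable G ∧ IsCocycle c ∧ InO c ∧
      ∀ S : Finset G, IsSymmGen S → ¬ InClosure S c := by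
  classical
  refine ⟨Gam, inferInstance, Sph, inferInstance, inferInstance, inferInstance, inferInstance,
    inferInstance, inferInstance, cocG, ?_, amenable_Gam, cocG_isCocycle, cocG_inO,
    fun S hS => not_inClosure S hS.2.2⟩
  have hfg : Group.FG Gam := inferInstance
  obtain ⟨S, hS⟩ := (Group.fg_def.mp hfg)
  refine ⟨(S ∪ S.image (fun g => g⁻¹)).erase 1, ?_, ?_, ?_⟩
  · intro s hs
    rw [Finset.mem_erase, Finset.mem_union, Finset.mem_image] at hs ⊢
    obtain ⟨h1, h2⟩ := hs
    refine ⟨inv_ne_one.mpr h1, ?_⟩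
    rcases h2 with h2 | ⟨a, ha, rfl⟩
    · right; exact ⟨s, h2, rfl⟩
    · left; rwa [inv_inv]
  · simp
  · rw [eq_top_iff, ← hS, Subgroup.closure_le]
    intro s hs
    by_cases h1 : s = 1
    · rw [h1]; exact Subgroup.one_mem _
    · apply Subgroup.subset_closure
      simp only [Finset.coe_erase, Finset.coe_union, Set.mem_sdiff, Set.mem_union]
      exact ⟨Or.inl hs, h1⟩

end Pool.Agent.Results.MP_d52620_an.ClosureFails
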